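import Pool.Agent.Helper97.ISO.Tools

/-!
Project ISO (captain helper69): row G5, the ring of a hub of degree 4.
-/

set_option autoImplicit false
set_option linter.unusedSimpArgs false

open scoped Classical

namespace Pool.Agent.Helper97.ISO

open Pool.Agent.Helper79.PN Pool.Agent.Helper69.ISO

theorem g5_hb (c : Lam) (m : ZMod 5) : hb (c - e m + e (m + 1) + e (m - 1)) m = c := by
  unfold hb
  abel

/-- the wheel on one side -/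
theorem g5_wp (P : Pen) (c : Lam) (m : ZMod 5) (hX : X1 P c m)
    (hm : (2 - g) / 2 < P.h (c - e m + e (m + 1) + e (m - 1)) m) :
    Wh P (hb (c - e m + e (m + 1) + e (m - 1)) (m + 2)) := by
  obtain ⟨hn, hv, h1, h2, h3⟩ := hX
  have hs := g_sq
  have hg1 := g_gt
  have hg2 := g_lt
  obtain ⟨r0, r1, r2, r3, r4⟩ := P.rel0 c m
  obtain ⟨s0, s1, s2, s3, s4⟩ := P.relg c m
  have b0 := w1 hn hv m
  have b1 := w1 hn hv (m + 1)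
  have b4 := w1 hn hv (m - 1)
  have b2 := w1 hn hv (m + 2)
  have b3 := w1 hn hv (m - 2)
  have hm' : (6 - 3 * g) / 2 < P.h c m := by
    rw [show P.h (c - e m + e (m + 1) + e (m - 1)) m = P.h c m + (g - 2) by
      simp only [Pen.h_add, Pen.h_sub, cd_0_0, cd_0_p, cd_0_m, cd_0_pp, cd_0_mm, cd_p_0,
          cd_p_p, cd_p_m, cd_p_pp, cd_p_mm, cd_m_0, cd_m_p, cd_m_m, cd_m_pp, cd_m_mm, cd_pp_0,
          cd_pp_p, cd_pp_m, cd_pp_pp, cd_pp_mm, cd_mm_0, cd_mm_p, cd_mm_m, cd_mm_pp, cd_mm_mm]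
      ring] at hm
    linarith
  have hnn : P.n (hb (c - e m + e (m + 1) + e (m - 1)) (m + 2)) = 1 := by
    unfold hb
    simp only [P.n_add, P.n_sub]
    omega
  obtain ⟨c1, c2⟩ := gm hm'
  obtain ⟨d1, d2⟩ := gm h2
  obtain ⟨d3, d4⟩ := gm h3
  have v0 : P.h (hb (c - e m + e (m + 1) + e (m - 1)) (m + 2)) m =
      P.h c m - (3 - g) / 2 := by
    unfold hb
    rw [p2p1, p2m1]
    simp only [Pen.h_add, Pen.h_sub, cd_0_0, cd_0_p, cd_0_m, cd_0_pp, cd_0_mm, cd_p_0, cd_p_p,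
        cd_p_m, cd_p_pp, cd_p_mm, cd_m_0, cd_m_p, cd_m_m, cd_m_pp, cd_m_mm, cd_pp_0, cd_pp_p,
        cd_pp_m, cd_pp_pp, cd_pp_mm, cd_mm_0, cd_mm_p, cd_mm_m, cd_mm_pp, cd_mm_mm]
    ring
  have v1 : P.h (hb (c - e m + e (m + 1) + e (m - 1)) (m + 2)) (m + 1) = P.h c (m + 1) := by
    unfold hb
    rw [p2p1, p2m1]
    simp only [Pen.h_add, Pen.h_sub, cd_0_0, cd_0_p, cd_0_m, cd_0_pp, cd_0_mm, cd_p_0, cd_p_p,
        cd_p_m, cd_p_pp, cd_p_mm, cd_m_0, cd_m_p, cd_m_m, cd_m_pp, cd_m_mm, cd_pp_0, cd_pp_p,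
        cd_pp_m, cd_pp_pp, cd_pp_mm, cd_mm_0, cd_mm_p, cd_mm_m, cd_mm_pp, cd_mm_mm]
    ring
  have v4 : P.h (hb (c - e m + e (m + 1) + e (m - 1)) (m + 2)) (m - 1) =
      P.h c (m - 1) + (4 - 3 * g) / 2 := by
    unfold hb
    rw [p2p1, p2m1]
    simp only [Pen.h_add, Pen.h_sub, cd_0_0, cd_0_p, cd_0_m, cd_0_pp, cd_0_mm, cd_p_0, cd_p_p,
        cd_p_m, cd_p_pp, cd_p_mm, cd_m_0, cd_m_p, cd_m_m, cd_m_pp, cd_m_mm, cd_pp_0, cd_pp_p,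
        cd_pp_m, cd_pp_pp, cd_pp_mm, cd_mm_0, cd_mm_p, cd_mm_m, cd_mm_pp, cd_mm_mm]
    ring
  have v2 : P.h (hb (c - e m + e (m + 1) + e (m - 1)) (m + 2)) (m + 2) =
      P.h c (m + 2) + (3 - g) / 2 := by
    unfold hb
    rw [p2p1, p2m1]
    simp only [Pen.h_add, Pen.h_sub, cd_0_0, cd_0_p, cd_0_m, cd_0_pp, cd_0_mm, cd_p_0, cd_p_p,
        cd_p_m, cd_p_pp, cd_p_mm, cd_m_0, cd_m_p, cd_m_m, cd_m_pp, cd_m_mm, cd_pp_0, cd_pp_p,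
        cd_pp_m, cd_pp_pp, cd_pp_mm, cd_mm_0, cd_mm_p, cd_mm_m, cd_mm_pp, cd_mm_mm]
    ring
  have v3 : P.h (hb (c - e m + e (m + 1) + e (m - 1)) (m + 2)) (m - 2) =
      P.h c (m - 2) + (3 * g - 4) / 2 := by
    unfold hb
    rw [p2p1, p2m1]
    simp only [Pen.h_add, Pen.h_sub, cd_0_0, cd_0_p, cd_0_m, cd_0_pp, cd_0_mm, cd_p_0, cd_p_p,
        cd_p_m, cd_p_pp, cd_p_mm, cd_m_0, cd_m_p, cd_m_m, cd_m_pp, cd_m_mm, cd_pp_0, cd_pp_p,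
        cd_pp_m, cd_pp_pp, cd_pp_mm, cd_mm_0, cd_mm_p, cd_mm_m, cd_mm_pp, cd_mm_mm]
    ring
  have e1 : (g - 1) * ((6 - 3 * g) / 2) = (6 * g - 9) / 2 := by linear_combination (-3 / 2) * hs
  have e2 : (g - 1) * ((g - 1) / 2) = (2 - g) / 2 := by linear_combination (1 / 2) * hs
  rw [e1] at c2
  rw [e2] at d2 d4
  refine ⟨hnn, (inv1 hnn).2 ?_, ?_⟩
  · refine all5 m ?_ ?_ ?_ ?_ ?_
    · rw [v0]; linarith
    · rw [v1]; linarith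
    · rw [v4]; linarith
    · rw [v2]; linarith
    · rw [v3]; linarith
  · refine all5 m ?_ ?_ ?_ ?_ ?_
    · rw [v0]; linarith
    · rw [v1]; linarith
    · rw [v4]; linarith
    · rw [v2]; linarith
    · rw [v3]; linarith

/-- the wheel on the other side -/
theorem g5_wm (P : Pen) (c : Lam) (m : ZMod 5) (hX : X1 P c m)
    (hm : (2 - g) / 2 < P.h (c - e m + e (m + 1) + e (m - 1)) m) :
    Wh P (hb (c - e m + e (m + 1) + e (m - 1)) (m - 2)) := by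
  obtain ⟨hn, hv, h1, h2, h3⟩ := hX
  have hs := g_sq
  have hg1 := g_gt
  have hg2 := g_lt
  obtain ⟨r0, r1, r2, r3, r4⟩ := P.rel0 c m
  obtain ⟨s0, s1, s2, s3, s4⟩ := P.relg c m
  have b0 := w1 hn hv m
  have b1 := w1 hn hv (m + 1)
  have b4 := w1 hn hv (m - 1)
  have b2 := w1 hn hv (m + 2)
  have b3 := w1 hn hv (m - 2)
  have hm' : (6 - 3 * g) / 2 < P.h c m := by
    rw [show P.h (c - e m + e (m + 1) + e (m - 1)) m = P.h c m + (g - 2) by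
      simp only [Pen.h_add, Pen.h_sub, cd_0_0, cd_0_p, cd_0_m, cd_0_pp, cd_0_mm, cd_p_0,
          cd_p_p, cd_p_m, cd_p_pp, cd_p_mm, cd_m_0, cd_m_p, cd_m_m, cd_m_pp, cd_m_mm, cd_pp_0,
          cd_pp_p, cd_pp_m, cd_pp_pp, cd_pp_mm, cd_mm_0, cd_mm_p, cd_mm_m, cd_mm_pp, cd_mm_mm]
      ring] at hm
    linarith
  have hnn : P.n (hb (c - e m + e (m + 1) + e (m - 1)) (m - 2)) = 1 := by
    unfold hb
    simp only [P.n_add, P.n_sub]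
    omega
  obtain ⟨c1, c2⟩ := gm hm'
  obtain ⟨d1, d2⟩ := gm h2
  obtain ⟨d3, d4⟩ := gm h3
  have v0 : P.h (hb (c - e m + e (m + 1) + e (m - 1)) (m - 2)) m =
      P.h c m - (3 - g) / 2 := by
    unfold hb
    rw [m2p1, m2m1]
    simp only [Pen.h_add, Pen.h_sub, cd_0_0, cd_0_p, cd_0_m, cd_0_pp, cd_0_mm, cd_p_0, cd_p_p,
        cd_p_m, cd_p_pp, cd_p_mm, cd_m_0, cd_m_p, cd_m_m, cd_m_pp, cd_m_mm, cd_pp_0, cd_pp_p,
        cd_pp_m, cd_pp_pp, cd_pp_mm, cd_mm_0, cd_mm_p, cd_mm_m, cd_mm_pp, cd_mm_mm]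
    ring
  have v4 : P.h (hb (c - e m + e (m + 1) + e (m - 1)) (m - 2)) (m - 1) = P.h c (m - 1) := by
    unfold hb
    rw [m2p1, m2m1]
    simp only [Pen.h_add, Pen.h_sub, cd_0_0, cd_0_p, cd_0_m, cd_0_pp, cd_0_mm, cd_p_0, cd_p_p,
        cd_p_m, cd_p_pp, cd_p_mm, cd_m_0, cd_m_p, cd_m_m, cd_m_pp, cd_m_mm, cd_pp_0, cd_pp_p,
        cd_pp_m, cd_pp_pp, cd_pp_mm, cd_mm_0, cd_mm_p, cd_mm_m, cd_mm_pp, cd_mm_mm]
    ring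
  have v1 : P.h (hb (c - e m + e (m + 1) + e (m - 1)) (m - 2)) (m + 1) =
      P.h c (m + 1) + (4 - 3 * g) / 2 := by
    unfold hb
    rw [m2p1, m2m1]
    simp only [Pen.h_add, Pen.h_sub, cd_0_0, cd_0_p, cd_0_m, cd_0_pp, cd_0_mm, cd_p_0, cd_p_p,
        cd_p_m, cd_p_pp, cd_p_mm, cd_m_0, cd_m_p, cd_m_m, cd_m_pp, cd_m_mm, cd_pp_0, cd_pp_p,
        cd_pp_m, cd_pp_pp, cd_pp_mm, cd_mm_0, cd_mm_p, cd_mm_m, cd_mm_pp, cd_mm_mm]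
    ring
  have v3 : P.h (hb (c - e m + e (m + 1) + e (m - 1)) (m - 2)) (m - 2) =
      P.h c (m - 2) + (3 - g) / 2 := by
    unfold hb
    rw [m2p1, m2m1]
    simp only [Pen.h_add, Pen.h_sub, cd_0_0, cd_0_p, cd_0_m, cd_0_pp, cd_0_mm, cd_p_0, cd_p_p,
        cd_p_m, cd_p_pp, cd_p_mm, cd_m_0, cd_m_p, cd_m_m, cd_m_pp, cd_m_mm, cd_pp_0, cd_pp_p,
        cd_pp_m, cd_pp_pp, cd_pp_mm, cd_mm_0, cd_mm_p, cd_mm_m, cd_mm_pp, cd_mm_mm]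
    ring
  have v2 : P.h (hb (c - e m + e (m + 1) + e (m - 1)) (m - 2)) (m + 2) =
      P.h c (m + 2) + (3 * g - 4) / 2 := by
    unfold hb
    rw [m2p1, m2m1]
    simp only [Pen.h_add, Pen.h_sub, cd_0_0, cd_0_p, cd_0_m, cd_0_pp, cd_0_mm, cd_p_0, cd_p_p,
        cd_p_m, cd_p_pp, cd_p_mm, cd_m_0, cd_m_p, cd_m_m, cd_m_pp, cd_m_mm, cd_pp_0, cd_pp_p,
        cd_pp_m, cd_pp_pp, cd_pp_mm, cd_mm_0, cd_mm_p, cd_mm_m, cd_mm_pp, cd_mm_mm]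
    ring
  have e1 : (g - 1) * ((6 - 3 * g) / 2) = (6 * g - 9) / 2 := by linear_combination (-3 / 2) * hs
  have e2 : (g - 1) * ((g - 1) / 2) = (2 - g) / 2 := by linear_combination (1 / 2) * hs
  rw [e1] at c2
  rw [e2] at d2 d4
  refine ⟨hnn, (inv1 hnn).2 ?_, ?_⟩
  · refine all5 m ?_ ?_ ?_ ?_ ?_
    · rw [v0]; linarith
    · rw [v1]; linarith
    · rw [v4]; linarith
    · rw [v2]; linarith
    · rw [v3]; linarith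
  · refine all5 m ?_ ?_ ?_ ?_ ?_
    · rw [v0]; linarith
    · rw [v1]; linarith
    · rw [v4]; linarith
    · rw [v2]; linarith
    · rw [v3]; linarith

/-- values around the ring -/
theorem g5_z (P : Pen) (c : Lam) (m : ZMod 5) (hX : X1 P c m) :
    P.n (c - e m + e (m + 1) + e (m - 1)) = 2 ∧
    P.h (c - e m + e (m + 1) + e (m - 1)) m < g - 1 ∧
    P.h (c - e m + e (m + 1) + e (m - 1)) (m + 1) < (2 - g) / 2 ∧
    P.h (c - e m + e (m + 1) + e (m - 1)) (m - 1) < (2 - g) / 2 ∧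
    P.h (c - e m + e (m + 1) + e (m - 1)) (m + 2) < (2 - g) / 2 ∧
    P.h (c - e m + e (m + 1) + e (m - 1)) (m - 2) < (2 - g) / 2 := by
  obtain ⟨hn, hv, h1, h2, h3⟩ := hX
  have hs := g_sq
  have hg1 := g_gt
  have hg2 := g_lt
  obtain ⟨r0, r1, r2, r3, r4⟩ := P.rel0 c m
  have b0 := w1 hn hv m
  obtain ⟨d1, d2⟩ := gm h2
  obtain ⟨d3, d4⟩ := gm h3
  have e2 : (g - 1) * ((g - 1) / 2) = (2 - g) / 2 := by linear_combination (1 / 2) * hs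
  rw [e2] at d2 d4
  have v0 : P.h (c - e m + e (m + 1) + e (m - 1)) m = P.h c m + (g - 2) := by
    simp only [Pen.h_add, Pen.h_sub, cd_0_0, cd_0_p, cd_0_m, cd_0_pp, cd_0_mm, cd_p_0, cd_p_p,
        cd_p_m, cd_p_pp, cd_p_mm, cd_m_0, cd_m_p, cd_m_m, cd_m_pp, cd_m_mm, cd_pp_0, cd_pp_p,
        cd_pp_m, cd_pp_pp, cd_pp_mm, cd_mm_0, cd_mm_p, cd_mm_m, cd_mm_pp, cd_mm_mm]
    ring
  have v1 : P.h (c - e m + e (m + 1) + e (m - 1)) (m + 1) = P.h c (m + 1) + (3 - 2 * g) / 2 := by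
    simp only [Pen.h_add, Pen.h_sub, cd_0_0, cd_0_p, cd_0_m, cd_0_pp, cd_0_mm, cd_p_0, cd_p_p,
        cd_p_m, cd_p_pp, cd_p_mm, cd_m_0, cd_m_p, cd_m_m, cd_m_pp, cd_m_mm, cd_pp_0, cd_pp_p,
        cd_pp_m, cd_pp_pp, cd_pp_mm, cd_mm_0, cd_mm_p, cd_mm_m, cd_mm_pp, cd_mm_mm]
    ring
  have v4 : P.h (c - e m + e (m + 1) + e (m - 1)) (m - 1) = P.h c (m - 1) + (3 - 2 * g) / 2 := by
    simp only [Pen.h_add, Pen.h_sub, cd_0_0, cd_0_p, cd_0_m, cd_0_pp, cd_0_mm, cd_p_0, cd_p_p,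
        cd_p_m, cd_p_pp, cd_p_mm, cd_m_0, cd_m_p, cd_m_m, cd_m_pp, cd_m_mm, cd_pp_0, cd_pp_p,
        cd_pp_m, cd_pp_pp, cd_pp_mm, cd_mm_0, cd_mm_p, cd_mm_m, cd_mm_pp, cd_mm_mm]
    ring
  have v2 : P.h (c - e m + e (m + 1) + e (m - 1)) (m + 2) = P.h c (m + 2) + (g - 1) / 2 := by
    simp only [Pen.h_add, Pen.h_sub, cd_0_0, cd_0_p, cd_0_m, cd_0_pp, cd_0_mm, cd_p_0, cd_p_p,
        cd_p_m, cd_p_pp, cd_p_mm, cd_m_0, cd_m_p, cd_m_m, cd_m_pp, cd_m_mm, cd_pp_0, cd_pp_p,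
        cd_pp_m, cd_pp_pp, cd_pp_mm, cd_mm_0, cd_mm_p, cd_mm_m, cd_mm_pp, cd_mm_mm]
    ring
  have v3 : P.h (c - e m + e (m + 1) + e (m - 1)) (m - 2) = P.h c (m - 2) + (g - 1) / 2 := by
    simp only [Pen.h_add, Pen.h_sub, cd_0_0, cd_0_p, cd_0_m, cd_0_pp, cd_0_mm, cd_p_0, cd_p_p,
        cd_p_m, cd_p_pp, cd_p_mm, cd_m_0, cd_m_p, cd_m_m, cd_m_pp, cd_m_mm, cd_pp_0, cd_pp_p,
        cd_pp_m, cd_pp_pp, cd_pp_mm, cd_mm_0, cd_mm_p, cd_mm_m, cd_mm_pp, cd_mm_mm]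
    ring
  refine ⟨?_, ?_, ?_, ?_, ?_, ?_⟩
  · simp only [P.n_add, P.n_sub]
    omega
  · rw [v0]; linarith
  · rw [v1]; linarith
  · rw [v4]; linarith
  · rw [v2]; linarith
  · rw [v3]; linarith

/-- the vertex of degree 3 of index 4 on one side -/
theorem g5_tp (P : Pen) (z : Lam) (m : ZMod 5) (hn : P.n z = 2) (h0 : P.h z m < g - 1)
    (h1 : P.h z (m + 1) < (2 - g) / 2) (h4 : P.h z (m - 1) < (2 - g) / 2)
    (h2 : P.h z (m + 2) < (2 - g) / 2) (h3 : P.h z (m - 2) < (2 - g) / 2) :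
    T1 P.mir (-(z + e m + e (m + 2))) (m + 1) := by
  have hg1 := g_gt
  have hg2 := g_lt
  have v0 : P.h (z + e m + e (m + 2)) m = P.h z m + (2 - g) / 2 := by
    simp only [Pen.h_add, Pen.h_sub, cd_0_0, cd_0_p, cd_0_m, cd_0_pp, cd_0_mm, cd_p_0, cd_p_p,
        cd_p_m, cd_p_pp, cd_p_mm, cd_m_0, cd_m_p, cd_m_m, cd_m_pp, cd_m_mm, cd_pp_0, cd_pp_p,
        cd_pp_m, cd_pp_pp, cd_pp_mm, cd_mm_0, cd_mm_p, cd_mm_m, cd_mm_pp, cd_mm_mm]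
    ring
  have v1 : P.h (z + e m + e (m + 2)) (m + 1) = P.h z (m + 1) + (g - 1) := by
    simp only [Pen.h_add, Pen.h_sub, cd_0_0, cd_0_p, cd_0_m, cd_0_pp, cd_0_mm, cd_p_0, cd_p_p,
        cd_p_m, cd_p_pp, cd_p_mm, cd_m_0, cd_m_p, cd_m_m, cd_m_pp, cd_m_mm, cd_pp_0, cd_pp_p,
        cd_pp_m, cd_pp_pp, cd_pp_mm, cd_mm_0, cd_mm_p, cd_mm_m, cd_mm_pp, cd_mm_mm]
    ring
  have v4 : P.h (z + e m + e (m + 2)) (m - 1) = P.h z (m - 1) - 1 / 2 := by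
    simp only [Pen.h_add, Pen.h_sub, cd_0_0, cd_0_p, cd_0_m, cd_0_pp, cd_0_mm, cd_p_0, cd_p_p,
        cd_p_m, cd_p_pp, cd_p_mm, cd_m_0, cd_m_p, cd_m_m, cd_m_pp, cd_m_mm, cd_pp_0, cd_pp_p,
        cd_pp_m, cd_pp_pp, cd_pp_mm, cd_mm_0, cd_mm_p, cd_mm_m, cd_mm_pp, cd_mm_mm]
    ring
  have v2 : P.h (z + e m + e (m + 2)) (m + 2) = P.h z (m + 2) + (2 - g) / 2 := by
    simp only [Pen.h_add, Pen.h_sub, cd_0_0, cd_0_p, cd_0_m, cd_0_pp, cd_0_mm, cd_p_0, cd_p_p,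
        cd_p_m, cd_p_pp, cd_p_mm, cd_m_0, cd_m_p, cd_m_m, cd_m_pp, cd_m_mm, cd_pp_0, cd_pp_p,
        cd_pp_m, cd_pp_pp, cd_pp_mm, cd_mm_0, cd_mm_p, cd_mm_m, cd_mm_pp, cd_mm_mm]
    ring
  have v3 : P.h (z + e m + e (m + 2)) (m - 2) = P.h z (m - 2) - 1 / 2 := by
    simp only [Pen.h_add, Pen.h_sub, cd_0_0, cd_0_p, cd_0_m, cd_0_pp, cd_0_mm, cd_p_0, cd_p_p,
        cd_p_m, cd_p_pp, cd_p_mm, cd_m_0, cd_m_p, cd_m_m, cd_m_pp, cd_m_mm, cd_pp_0, cd_pp_p,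
        cd_pp_m, cd_pp_pp, cd_pp_mm, cd_mm_0, cd_mm_p, cd_mm_m, cd_mm_pp, cd_mm_mm]
    ring
  have hnn : P.n (z + e m + e (m + 2)) = 4 := by
    simp only [P.n_add]
    omega
  refine ⟨?_, ?_, ?_, ?_⟩
  · rw [Pen.mir_n, neg_neg, hnn]
    norm_num
  · rw [inv_mir, inv4 hnn]
    refine all5 m ?_ ?_ ?_ ?_ ?_
    · rw [v0]; linarith
    · rw [v1]; linarith
    · rw [v4]; linarith
    · rw [v2]; linarith
    · rw [v3]; linarith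
  · rw [Pen.mir_h, neg_neg, p1p2, v3]; linarith
  · rw [Pen.mir_h, neg_neg, p1m2, v4]; linarith

/-- the vertex of degree 3 of index 4 on the other side -/
theorem g5_tm (P : Pen) (z : Lam) (m : ZMod 5) (hn : P.n z = 2) (h0 : P.h z m < g - 1)
    (h1 : P.h z (m + 1) < (2 - g) / 2) (h4 : P.h z (m - 1) < (2 - g) / 2)
    (h2 : P.h z (m + 2) < (2 - g) / 2) (h3 : P.h z (m - 2) < (2 - g) / 2) :
    T1 P.mir (-(z + e m + e (m - 2))) (m - 1) := by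
  have hg1 := g_gt
  have hg2 := g_lt
  have v0 : P.h (z + e m + e (m - 2)) m = P.h z m + (2 - g) / 2 := by
    simp only [Pen.h_add, Pen.h_sub, cd_0_0, cd_0_p, cd_0_m, cd_0_pp, cd_0_mm, cd_p_0, cd_p_p,
        cd_p_m, cd_p_pp, cd_p_mm, cd_m_0, cd_m_p, cd_m_m, cd_m_pp, cd_m_mm, cd_pp_0, cd_pp_p,
        cd_pp_m, cd_pp_pp, cd_pp_mm, cd_mm_0, cd_mm_p, cd_mm_m, cd_mm_pp, cd_mm_mm]
    ring
  have v4 : P.h (z + e m + e (m - 2)) (m - 1) = P.h z (m - 1) + (g - 1) := by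
    simp only [Pen.h_add, Pen.h_sub, cd_0_0, cd_0_p, cd_0_m, cd_0_pp, cd_0_mm, cd_p_0, cd_p_p,
        cd_p_m, cd_p_pp, cd_p_mm, cd_m_0, cd_m_p, cd_m_m, cd_m_pp, cd_m_mm, cd_pp_0, cd_pp_p,
        cd_pp_m, cd_pp_pp, cd_pp_mm, cd_mm_0, cd_mm_p, cd_mm_m, cd_mm_pp, cd_mm_mm]
    ring
  have v1 : P.h (z + e m + e (m - 2)) (m + 1) = P.h z (m + 1) - 1 / 2 := by
    simp only [Pen.h_add, Pen.h_sub, cd_0_0, cd_0_p, cd_0_m, cd_0_pp, cd_0_mm, cd_p_0, cd_p_p,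
        cd_p_m, cd_p_pp, cd_p_mm, cd_m_0, cd_m_p, cd_m_m, cd_m_pp, cd_m_mm, cd_pp_0, cd_pp_p,
        cd_pp_m, cd_pp_pp, cd_pp_mm, cd_mm_0, cd_mm_p, cd_mm_m, cd_mm_pp, cd_mm_mm]
    ring
  have v3 : P.h (z + e m + e (m - 2)) (m - 2) = P.h z (m - 2) + (2 - g) / 2 := by
    simp only [Pen.h_add, Pen.h_sub, cd_0_0, cd_0_p, cd_0_m, cd_0_pp, cd_0_mm, cd_p_0, cd_p_p,
        cd_p_m, cd_p_pp, cd_p_mm, cd_m_0, cd_m_p, cd_m_m, cd_m_pp, cd_m_mm, cd_pp_0, cd_pp_p,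
        cd_pp_m, cd_pp_pp, cd_pp_mm, cd_mm_0, cd_mm_p, cd_mm_m, cd_mm_pp, cd_mm_mm]
    ring
  have v2 : P.h (z + e m + e (m - 2)) (m + 2) = P.h z (m + 2) - 1 / 2 := by
    simp only [Pen.h_add, Pen.h_sub, cd_0_0, cd_0_p, cd_0_m, cd_0_pp, cd_0_mm, cd_p_0, cd_p_p,
        cd_p_m, cd_p_pp, cd_p_mm, cd_m_0, cd_m_p, cd_m_m, cd_m_pp, cd_m_mm, cd_pp_0, cd_pp_p,
        cd_pp_m, cd_pp_pp, cd_pp_mm, cd_mm_0, cd_mm_p, cd_mm_m, cd_mm_pp, cd_mm_mm]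
    ring
  have hnn : P.n (z + e m + e (m - 2)) = 4 := by
    simp only [P.n_add]
    omega
  refine ⟨?_, ?_, ?_, ?_⟩
  · rw [Pen.mir_n, neg_neg, hnn]
    norm_num
  · rw [inv_mir, inv4 hnn]
    refine all5 m ?_ ?_ ?_ ?_ ?_
    · rw [v0]; linarith
    · rw [v1]; linarith
    · rw [v4]; linarith
    · rw [v2]; linarith
    · rw [v3]; linarith
  · rw [Pen.mir_h, neg_neg, m1p2, v1]; linarith
  · rw [Pen.mir_h, neg_neg, m1m2, v2]; linarith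

/-- G5: the ring of a hub of degree 4 -/
theorem G5 : ST_G5 := by
  intro P c m hX
  obtain ⟨hn, h0, h1, h4, h2, h3⟩ := g5_z P c m hX
  have hne := nsc hn m
  rcases lt_or_gt_of_ne hne with hlt | hgt
  · left
    refine ⟨hn, ?_⟩
    exact all5 m hlt h1 h4 h2 h3
  · right
    refine ⟨?_, g5_wp P c m hX hgt, g5_wm P c m hX hgt, g5_tp P _ m hn h0 h1 h4 h2 h3,
      g5_tm P _ m hn h0 h1 h4 h2 h3⟩
    rw [g5_hb]
    exact hX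

end Pool.Agent.Helper97.ISO
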