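import Pool.Agent.Helper97.ISO.Tools

/-!
Project ISO (captain helper69): row M2, the five wheels around a point of index 4.
-/

set_option autoImplicit false

open scoped Classical

namespace Pool.Agent.Helper97.ISO

open Pool.Agent.Helper79.PN Pool.Agent.Helper69.ISO

theorem m2_near_add {P : Pen} {a : Lam → ℝ} {n : ℕ} {c : Lam} {M : ℝ}
    (h : Near P a (n + 1) c M) (i : ZMod 5) : Near P a n (c + e i) M := by
  intro D hD
  rw [show c + e i + D = c + (e i + D) by abel]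
  apply h
  unfold Bx at hD ⊢
  rw [Fintype.mem_piFinset] at hD ⊢
  intro k
  have h1 := hD k
  rw [Finset.mem_Icc] at h1 ⊢
  have h2 : -1 ≤ e i k ∧ e i k ≤ 1 := by
    unfold e
    by_cases hk : k = i
    · subst hk; simp
    · simp [hk]
  rw [Pi.add_apply]
  push_cast
  constructor <;> omega

theorem m2_near_sub {P : Pen} {a : Lam → ℝ} {n : ℕ} {c : Lam} {M : ℝ}
    (h : Near P a (n + 1) c M) (i : ZMod 5) : Near P a n (c - e i) M := by
  intro D hD
  rw [show c - e i + D = c + (D - e i) by abel]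
  apply h
  unfold Bx at hD ⊢
  rw [Fintype.mem_piFinset] at hD ⊢
  intro k
  have h1 := hD k
  rw [Finset.mem_Icc] at h1 ⊢
  have h2 : -1 ≤ e i k ∧ e i k ≤ 1 := by
    unfold e
    by_cases hk : k = i
    · subst hk; simp
    · simp [hk]
  rw [Pi.sub_apply]
  push_cast
  constructor <;> omega

theorem m2_near_nonneg {P : Pen} {a : Lam → ℝ} {n : ℕ} {c : Lam} {M : ℝ}
    (h : Near P a n c M) : 0 ≤ M := by
  have h1 := h 0 (by
    unfold Bx
    rw [Fintype.mem_piFinset]
    intro k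
    rw [Finset.mem_Icc]
    simp)
  exact le_trans (abs_nonneg _) h1

theorem m2_near_mono {P : Pen} {a : Lam → ℝ} {n m : ℕ} {c : Lam} {M : ℝ}
    (h : Near P a m c M) (hnm : n ≤ m) : Near P a n c M := by
  intro D hD
  apply h
  unfold Bx at hD ⊢
  rw [Fintype.mem_piFinset] at hD ⊢
  intro k
  have h1 := hD k
  rw [Finset.mem_Icc] at h1 ⊢
  constructor <;> omega

theorem m2_i3 (j : ZMod 5) : j + 3 = j - 2 := by revert j; decide
theorem m2_m1m3 (j : ZMod 5) : j - 3 = j + 2 := by revert j; decide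

theorem m2_hb2 (c : Lam) (j : ZMod 5) :
    hb (c - e (j + 2) + e (j + 1) + e (j + 3)) (j + 2) = c := by
  unfold hb
  rw [p2p1, p2m1, m2_i3]
  abel

theorem m2_hb1 (u : Lam) (j : ZMod 5) :
    hb (vc u j - e (j + 2) + e (j + 1) + e (j + 3)) (j + 1) = vc u (j - 2) := by
  unfold hb vc
  rw [p1p1, p1m1, m2_i3, m2p1, m2m1]
  abel

theorem m2_hb4 (u : Lam) (j : ZMod 5) :
    hb (vc u j - e (j + 2) + e (j + 1) + e (j + 3)) (j - 1) = xv u (j - 1) := by
  unfold hb vc xv
  rw [m1p1, m1m1, m2_i3, m1p2, m1m2]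
  abel

theorem m2_pv4 (u : Lam) (j : ZMod 5) :
    pv (vc u j - e (j + 2) + e (j + 1) + e (j + 3)) (j - 1) = yv u (j - 1) := by
  unfold pv vc yv
  rw [m1p1, m1m1, m2_i3, m1p2, m1m2]
  abel

theorem m2_near_vc {P : Pen} {a : Lam → ℝ} {n : ℕ} {u : Lam} {M : ℝ}
    (h : Near P a (n + 5) u M) (j : ZMod 5) : Near P a n (vc u j) M := by
  unfold vc
  exact m2_near_sub (m2_near_sub (m2_near_sub (m2_near_sub (m2_near_add h j) _) _) _) _

theorem m2_near_z {P : Pen} {a : Lam → ℝ} {n : ℕ} {u : Lam} {M : ℝ}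
    (h : Near P a (n + 8) u M) (j : ZMod 5) :
    Near P a n (vc u j - e (j + 2) + e (j + 1) + e (j + 3)) M := by
  exact m2_near_add (m2_near_add (m2_near_sub (m2_near_vc (n := n + 3) h j) _) _) _

/-- one step around the point of index 4 -/
theorem m2_step (hG7 : ST_G7) (hG9 : ST_G9) (hB3 : ST_B3) (hM1 : ST_M1) (P : Pen)
    (a : Lam → ℝ) (u : Lam) (M : ℝ) (hS4 : Sup4 P a) (hS : Sup P a) (hO : Orth P a)
    (hn : P.n u = 4) (hu : ∀ j, P.h u j < (2 * g - 3) / 2) (hN : Near P a 12 u M) (j : ZMod 5) :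
    |a (vc u j) - a (vc u (j - 2))| ≤ 400 * M ∧
    |a (xv u (j - 1)) + a (vc u (j - 2)) / 2| ≤ 400 * M ∧
    |a (yv u (j - 1)) - a (vc u (j - 2))| ≤ 400 * M := by
  have hM := m2_near_nonneg hN
  obtain ⟨hW, hb1, -, -⟩ := hG9 P u hn hu j
  rcases hG7 P (vc u j) j hW hb1 with hF | hA
  · have h1 := hM1 P a _ M hS4 hO hF (m2_near_z hN j)
    obtain ⟨c1, -, -⟩ := h1 (j + 2)
    obtain ⟨c2, -, -⟩ := h1 (j + 1)
    obtain ⟨c3, c4, -⟩ := h1 (j - 1)
    rw [m2_hb2] at c1
    rw [m2_hb1] at c2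
    rw [m2_hb4] at c3
    rw [m2_pv4] at c4
    rw [abs_le] at c1 c2 c3 c4
    refine ⟨?_, ?_, ?_⟩ <;> rw [abs_le] <;> constructor <;> linarith
  · have h1 := hB3 P a _ (j - 1) M hS hA (m2_near_mono (m2_near_z hN j) (by norm_num))
    obtain ⟨c1, c2, c3, -, -⟩ := h1
    rw [m1p2, m1m2, m2_hb2, m2_hb1] at c1
    rw [m1p2, m2_hb1, m2_hb4] at c2
    rw [m1p2, m2_hb1, m2_pv4] at c3
    rw [abs_le] at c1 c2 c3
    refine ⟨?_, ?_, ?_⟩ <;> rw [abs_le] <;> constructor <;> linarith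

/-- M2: the five wheels around a point of index 4 -/
theorem M2 (hNSL : ST_NSL) (hG6 : ST_G6) (hG7 : ST_G7) (hG9 : ST_G9) (hB1 : ST_B1)
    (hB3 : ST_B3) (hM1 : ST_M1) (hK3 : ST_K3) : ST_M2 := by
  refine ⟨4000, by norm_num, ?_⟩
  intro P a u M hS4 hO hn hu hN
  have hM := m2_near_nonneg hN
  have hS : Sup P a := fun K hK => hS4 K (Or.inl hK)
  have hst := m2_step hG7 hG9 hB3 hM1 P a u M hS4 hS hO hn hu hN
  -- all wheels are close to each other
  have hcl : ∀ j k, |a (vc u j) - a (vc u k)| ≤ 1600 * M := by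
    intro j k
    have d0 := (hst j).1
    have d1 := (hst (j - 2)).1
    have d2 := (hst (j - 2 - 2)).1
    have d3 := (hst (j - 2 - 2 - 2)).1
    have key : ∀ j k : ZMod 5, k = j ∨ k = j - 2 ∨ k = j - 2 - 2 ∨ k = j - 2 - 2 - 2 ∨
        k = j - 2 - 2 - 2 - 2 := by decide
    rw [abs_le] at d0 d1 d2 d3
    rw [abs_le]
    rcases key j k with h | h | h | h | h <;> rw [h] <;> constructor <;> linarith
  by_cases hex : ∃ j0, P.h u j0 < (8 - 5 * g) / 2
  · obtain ⟨j0, hj0⟩ := hex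
    obtain ⟨hW, hb1, hb2, -⟩ := hG9 P u hn hu (j0 + 1)
    rw [p1m1] at hb2
    have hF := hG6 P (vc u (j0 + 1)) (j0 + 1) hW hb1 (by rw [p1m1]; exact hb2 hj0)
    have h1 := (hM1 P a _ M hS4 hO hF (m2_near_z hN (j0 + 1)) (j0 + 1 + 2)).1
    rw [m2_hb2] at h1
    intro j
    have h2 := hcl j (j0 + 1)
    rw [abs_le] at h1 h2 ⊢
    constructor <;> linarith
  · push Not at hex
    have hgt : ∀ j, (8 - 5 * g) / 2 < P.h u j := fun j =>
      lt_of_le_of_ne (hex j) (hNSL.2.2 P u j hn).symm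
    have hsum := hK3 P a u hO hn hgt
    set A := a (vc u 0) with hA
    have hT : ∀ j : ZMod 5, |(∑ i, a (rim (vc u j) i) - 2 * a (vc u j) + a (xv u j) -
        2 * a (yv u j)) + 7 * A| ≤ 12415 * M := by
      intro j
      obtain ⟨hW, -, -, -⟩ := hG9 P u hn hu j
      have hr := hB1 P a (vc u j) M hS hW (m2_near_vc (m2_near_mono hN (by norm_num)) j)
      have hrs : |∑ i, a (rim (vc u j) i) + 5 / 2 * a (vc u j)| ≤ 15 * M := by
        have hh : ∑ i, a (rim (vc u j) i) + 5 / 2 * a (vc u j) =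
            ∑ i : ZMod 5, (a (rim (vc u j) i) + a (vc u j) / 2) := by
          rw [Finset.sum_add_distrib, Finset.sum_const, Finset.card_univ, ZMod.card]
          ring
        rw [hh]
        refine le_trans (Finset.abs_sum_le_sum_abs _ _) ?_
        refine le_trans (Finset.sum_le_sum fun i _ => hr i) ?_
        rw [Finset.sum_const, Finset.card_univ, ZMod.card]
        rw [nsmul_eq_mul]
        push_cast
        linarith
      obtain ⟨-, s1, s2⟩ := hst (j + 1)
      rw [p1m1, p1m2] at s1 s2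
      have t1 := hcl j 0
      have t2 := hcl (j - 1) 0
      rw [← hA] at t1 t2
      rw [abs_le] at hrs s1 s2 t1 t2 ⊢
      constructor <;> linarith
    have hT5 : |35 * A| ≤ 62075 * M := by
      have hh : 35 * A = ∑ j : ZMod 5, ((∑ i, a (rim (vc u j) i) - 2 * a (vc u j) +
          a (xv u j) - 2 * a (yv u j)) + 7 * A) := by
        rw [Finset.sum_add_distrib, hsum, Finset.sum_const, Finset.card_univ, ZMod.card,
          nsmul_eq_mul]
        push_cast
        ring
      rw [hh]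
      refine le_trans (Finset.abs_sum_le_sum_abs _ _) ?_
      refine le_trans (Finset.sum_le_sum fun i _ => hT i) ?_
      rw [Finset.sum_const, Finset.card_univ, ZMod.card, nsmul_eq_mul]
      push_cast
      linarith
    intro j
    have h2 := hcl j 0
    rw [← hA] at h2
    rw [abs_le] at hT5 h2 ⊢
    constructor <;> linarith

end Pool.Agent.Helper97.ISO
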