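import Pool.Agent.Helper69.ISO.Sheet
import Pool.Agent.Helper79.PN.Lem

/-!
Project ISO (captain helper69): tools for the geometry rows.
-/

set_option autoImplicit false

open scoped Classical

namespace Pool.Agent.Helper97.ISO

open Pool.Agent.Helper79.PN Pool.Agent.Helper69.ISO

theorem cd_0_0 (k : ZMod 5) : cc (k - k) = 1 := by
  rw [show k - k = (0 : ZMod 5) by revert k; decide, cc0]

theorem cd_0_p (k : ZMod 5) : cc (k - (k + 1)) = (g - 1) / 2 := by
  rw [show k - (k + 1) = (4 : ZMod 5) by revert k; decide, cc4]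

theorem cd_0_m (k : ZMod 5) : cc (k - (k - 1)) = (g - 1) / 2 := by
  rw [show k - (k - 1) = (1 : ZMod 5) by revert k; decide, cc1]

theorem cd_0_pp (k : ZMod 5) : cc (k - (k + 2)) = -g / 2 := by
  rw [show k - (k + 2) = (3 : ZMod 5) by revert k; decide, cc3]

theorem cd_0_mm (k : ZMod 5) : cc (k - (k - 2)) = -g / 2 := by
  rw [show k - (k - 2) = (2 : ZMod 5) by revert k; decide, cc2]

theorem cd_p_0 (k : ZMod 5) : cc (k + 1 - k) = (g - 1) / 2 := by
  rw [show k + 1 - k = (1 : ZMod 5) by revert k; decide, cc1]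

theorem cd_p_p (k : ZMod 5) : cc (k + 1 - (k + 1)) = 1 := by
  rw [show k + 1 - (k + 1) = (0 : ZMod 5) by revert k; decide, cc0]

theorem cd_p_m (k : ZMod 5) : cc (k + 1 - (k - 1)) = -g / 2 := by
  rw [show k + 1 - (k - 1) = (2 : ZMod 5) by revert k; decide, cc2]

theorem cd_p_pp (k : ZMod 5) : cc (k + 1 - (k + 2)) = (g - 1) / 2 := by
  rw [show k + 1 - (k + 2) = (4 : ZMod 5) by revert k; decide, cc4]

theorem cd_p_mm (k : ZMod 5) : cc (k + 1 - (k - 2)) = -g / 2 := by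
  rw [show k + 1 - (k - 2) = (3 : ZMod 5) by revert k; decide, cc3]

theorem cd_m_0 (k : ZMod 5) : cc (k - 1 - k) = (g - 1) / 2 := by
  rw [show k - 1 - k = (4 : ZMod 5) by revert k; decide, cc4]

theorem cd_m_p (k : ZMod 5) : cc (k - 1 - (k + 1)) = -g / 2 := by
  rw [show k - 1 - (k + 1) = (3 : ZMod 5) by revert k; decide, cc3]

theorem cd_m_m (k : ZMod 5) : cc (k - 1 - (k - 1)) = 1 := by
  rw [show k - 1 - (k - 1) = (0 : ZMod 5) by revert k; decide, cc0]

theorem cd_m_pp (k : ZMod 5) : cc (k - 1 - (k + 2)) = -g / 2 := by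
  rw [show k - 1 - (k + 2) = (2 : ZMod 5) by revert k; decide, cc2]

theorem cd_m_mm (k : ZMod 5) : cc (k - 1 - (k - 2)) = (g - 1) / 2 := by
  rw [show k - 1 - (k - 2) = (1 : ZMod 5) by revert k; decide, cc1]

theorem cd_pp_0 (k : ZMod 5) : cc (k + 2 - k) = -g / 2 := by
  rw [show k + 2 - k = (2 : ZMod 5) by revert k; decide, cc2]

theorem cd_pp_p (k : ZMod 5) : cc (k + 2 - (k + 1)) = (g - 1) / 2 := by
  rw [show k + 2 - (k + 1) = (1 : ZMod 5) by revert k; decide, cc1]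

theorem cd_pp_m (k : ZMod 5) : cc (k + 2 - (k - 1)) = -g / 2 := by
  rw [show k + 2 - (k - 1) = (3 : ZMod 5) by revert k; decide, cc3]

theorem cd_pp_pp (k : ZMod 5) : cc (k + 2 - (k + 2)) = 1 := by
  rw [show k + 2 - (k + 2) = (0 : ZMod 5) by revert k; decide, cc0]

theorem cd_pp_mm (k : ZMod 5) : cc (k + 2 - (k - 2)) = (g - 1) / 2 := by
  rw [show k + 2 - (k - 2) = (4 : ZMod 5) by revert k; decide, cc4]

theorem cd_mm_0 (k : ZMod 5) : cc (k - 2 - k) = -g / 2 := by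
  rw [show k - 2 - k = (3 : ZMod 5) by revert k; decide, cc3]

theorem cd_mm_p (k : ZMod 5) : cc (k - 2 - (k + 1)) = -g / 2 := by
  rw [show k - 2 - (k + 1) = (2 : ZMod 5) by revert k; decide, cc2]

theorem cd_mm_m (k : ZMod 5) : cc (k - 2 - (k - 1)) = (g - 1) / 2 := by
  rw [show k - 2 - (k - 1) = (4 : ZMod 5) by revert k; decide, cc4]

theorem cd_mm_pp (k : ZMod 5) : cc (k - 2 - (k + 2)) = (g - 1) / 2 := by
  rw [show k - 2 - (k + 2) = (1 : ZMod 5) by revert k; decide, cc1]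

theorem cd_mm_mm (k : ZMod 5) : cc (k - 2 - (k - 2)) = 1 := by
  rw [show k - 2 - (k - 2) = (0 : ZMod 5) by revert k; decide, cc0]

end Pool.Agent.Helper97.ISO
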